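import Pool.Agent.Helper2.LD.St4

/-!
# LD project, module Pb (helper69): predecessors below the critical level
-/

set_option autoImplicit false

namespace Pool.Agent.Helper69.LD

open Pool.Agent.Helper2.LD

section

variable {V Q Λ B FB : Type} {N e : ℕ} {c : Core V Q Λ B FB}

private theorem dist_of_edist (hc : CoreAx N e c) {x y : V} {n : ℕ}
    (h : c.G.edist x y = (n : ℕ∞)) : c.G.dist x y = n := by
  have h1 := (hc.conn.preconnected x y).coe_dist_eq_edist
  rw [h] at h1
  exact_mod_cast h1

private theorem edist_of_dist (hc : CoreAx N e c) {x y : V} {n : ℕ}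
    (h : c.G.dist x y = n) : c.G.edist x y = (n : ℕ∞) := by
  rw [← (hc.conn.preconnected x y).coe_dist_eq_edist, h]

/-- distances along faces, general starting corner -/
private theorem face (hc : CoreAx N e c) (q : Q) {i j : ℕ} (hj : j ≤ 2 * e) :
    c.G.dist (c.ow ((c.nx^[i]) q)) (c.ow ((c.nx^[j + i]) q)) = j := by
  rw [Function.iterate_add_apply]
  exact dist_of_edist hc (hc.iso _ j hj)

end

theorem pPb : StPb := by
  intro V Q Λ B FB K N e c s hp hc hs b u
  have he : 20 ≤ e := hp.2
  refine ⟨?_, ?_, ?_⟩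
  · intro z w hz hzw hd
    have hne : u ≠ z := by
      rintro rfl
      rw [SimpleGraph.dist_self] at hd
      omega
    have h1 : ¬ (b = true ∧ ∃ q, c.ow q = u ∧ c.ow ((c.nx^[2 * e]) q) = z) := by
      rintro ⟨-, q, rfl, rfl⟩
      have := dist_of_edist hc (hc.iso q (2 * e) le_rfl)
      omega
    obtain ⟨h2, h3⟩ := hs.pr u z hne
    have h4 : s.pr u z = w := by
      refine hc.k1 u z _ _ (c.G.dist u w) (by omega) (edist_of_dist hc hd.symm) h2
        (edist_of_dist hc (by omega)) hzw (edist_of_dist hc rfl)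
    simp only [pb]
    rw [dif_neg h1, h4]
  · intro q hq
    have h1 : true = true ∧ ∃ q', c.ow q' = u ∧
        c.ow ((c.nx^[2 * e]) q') = c.ow ((c.nx^[2 * e]) q) := ⟨rfl, q, hq, rfl⟩
    have h0 : pb (K := K) N e c s true u (.core (c.ow ((c.nx^[2 * e]) q))) =
        .gho h1.2.choose (2 * e - 1) := dif_pos h1
    rw [h0]
    have h2 := h1.2.choose_spec
    have h3 : h1.2.choose = q := hc.k4 _ _ (h2.1.trans hq.symm) h2.2
    rw [h3]
  · rintro q rfl
    have d2 : c.G.dist (c.ow q) (c.ow ((c.nx^[2 * e]) q)) = 2 * e :=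
      dist_of_edist hc (hc.iso q (2 * e) le_rfl)
    have d1 : c.G.dist (c.ow q) (c.ow ((c.nx^[e]) q)) = e :=
      dist_of_edist hc (hc.iso q e (by omega))
    have d3 : c.G.dist (c.ow ((c.nx^[3 * e]) q)) (c.ow q) = e := by
      have h1 := face hc q (i := 3 * e) (j := e) (by omega)
      have h2 : e + 3 * e = 4 * e := by ring
      rw [h2, hc.per q] at h1
      exact h1
    have d4 : c.G.dist (c.ow ((c.nx^[e]) q)) (c.ow ((c.nx^[3 * e]) q)) = 2 * e := by
      have h1 := face hc q (i := e) (j := 2 * e) le_rfl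
      have h2 : 2 * e + e = 3 * e := by ring
      rw [h2] at h1
      exact h1
    refine ⟨?_, ?_, d2, d1, ?_⟩
    · intro h
      rw [h, SimpleGraph.dist_self] at d2
      omega
    · intro h
      rw [h, SimpleGraph.dist_self] at d4
      omega
    · rw [SimpleGraph.dist_comm]
      exact d3

end Pool.Agent.Helper69.LD
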