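import Pool.Agent.Helper2.LD.St1

/-!
# LD project, module EFfin (helper69): the game of the frozen statement is `EF`
-/

set_option autoImplicit false

namespace Pool.Agent.Helper69.LD

open Pool.Agent.Helper2.LD

private def pos {n m j : ℕ} (a : Fin j → Fin n) (b : Fin j → Fin m) : List (Fin n × Fin m) :=
  List.ofFn fun i => (a i, b i)

private theorem mem_pos {n m j : ℕ} {a : Fin j → Fin n} {b : Fin j → Fin m} {x : Fin n × Fin m} :
    x ∈ pos a b ↔ ∃ i, (a i, b i) = x := by
  rw [pos, List.mem_ofFn]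

private theorem mem_snoc {n m j : ℕ} (a : Fin j → Fin n) (b : Fin j → Fin m) (v : Fin n)
    (w : Fin m) (x : Fin n × Fin m) :
    x ∈ pos (Fin.snoc (α := fun _ => Fin n) a v) (Fin.snoc (α := fun _ => Fin m) b w) ↔
      x ∈ (v, w) :: pos a b := by
  rw [mem_pos, List.mem_cons, mem_pos]
  constructor
  · rintro ⟨i, rfl⟩
    induction i using Fin.lastCases with
    | last =>
      left
      rw [Fin.snoc_last, Fin.snoc_last]
    | cast i =>
      right
      refine ⟨i, ?_⟩
      rw [Fin.snoc_castSucc, Fin.snoc_castSucc]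
  · rintro (rfl | ⟨i, rfl⟩)
    · refine ⟨Fin.last j, ?_⟩
      rw [Fin.snoc_last, Fin.snoc_last]
    · refine ⟨i.castSucc, ?_⟩
      rw [Fin.snoc_castSucc, Fin.snoc_castSucc]

private theorem pi_pos {n m j : ℕ} (T : SimpleGraph (Fin n)) (H : SimpleGraph (Fin m))
    (a : Fin j → Fin n) (b : Fin j → Fin m) : PI T H (pos a b) ↔
      ∀ i i' : Fin j, (a i = a i' ↔ b i = b i') ∧ (T.Adj (a i) (a i') ↔ H.Adj (b i) (b i')) := by
  constructor
  · intro h i i'
    exact h _ (mem_pos.2 ⟨i, rfl⟩) _ (mem_pos.2 ⟨i', rfl⟩)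
  · intro h x hx y hy
    obtain ⟨i, rfl⟩ := mem_pos.1 hx
    obtain ⟨i', rfl⟩ := mem_pos.1 hy
    exact h i i'

theorem pEFfin (hb : StEFb) : StEFfin := by
  intro n m k T H
  constructor
  · rintro ⟨R, h0, h1, h2⟩
    have key : ∀ r j : ℕ, j + r = k → ∀ (a : Fin j → Fin n) (b : Fin j → Fin m), R j a b →
        EF T H r (pos a b) := by
      intro r
      induction r with
      | zero =>
        intro j hj a b hR
        exact (pi_pos T H a b).2 (h1 j (by omega) a b hR)
      | succ r ih =>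
        intro j hj a b hR
        obtain ⟨h3, h4⟩ := h2 j (by omega) a b hR
        refine ⟨(pi_pos T H a b).2 (h1 j (by omega) a b hR), fun v => ?_, fun w => ?_⟩
        · obtain ⟨w, hw⟩ := h3 v
          exact ⟨w, hb.sub T H r _ _ (fun x hx => (mem_snoc a b v w x).2 hx)
            (ih (j + 1) (by omega) _ _ hw)⟩
        · obtain ⟨v, hv⟩ := h4 w
          exact ⟨v, hb.sub T H r _ _ (fun x hx => (mem_snoc a b v w x).2 hx)
            (ih (j + 1) (by omega) _ _ hv)⟩
    have h3 := key k 0 (by omega) Fin.elim0 Fin.elim0 h0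
    exact hb.sub T H k _ _ (fun x hx => absurd hx (by simp)) h3
  · intro h
    refine ⟨fun j a b => EF T H (k - j) (pos a b), ?_, fun j _ a b hR => ?_, fun j hj a b hR => ?_⟩
    · have h1 : pos (n := n) (m := m) Fin.elim0 Fin.elim0 = [] := by
        rw [pos, List.ofFn_zero]
      change EF T H (k - 0) (pos Fin.elim0 Fin.elim0)
      rw [h1]
      exact h
    · exact (pi_pos T H a b).1 (hb.pi T H _ _ hR)
    · have hk : k - j = (k - (j + 1)) + 1 := by omega
      change EF T H (k - j) (pos a b) at hR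
      rw [hk] at hR
      obtain ⟨-, h3, h4⟩ := hR
      refine ⟨fun v => ?_, fun w => ?_⟩
      · obtain ⟨w, hw⟩ := h3 v
        exact ⟨w, hb.sub T H _ _ _ (fun x hx => (mem_snoc a b v w x).1 hx) hw⟩
      · obtain ⟨v, hv⟩ := h4 w
        exact ⟨v, hb.sub T H _ _ _ (fun x hx => (mem_snoc a b v w x).1 hx) hv⟩

end Pool.Agent.Helper69.LD
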